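import Pool.Agent.H87PCG.Defs

/-!
# Caterpillars: every placement of the leaves on a line is realized
-/

namespace Pool.Agent.H87PCG

variable {V : Type} {R : ℕ}

/-- The parent function of the caterpillar. -/
def catPar (P : V → Fin (R + 1)) : Fin (R + 1) ⊕ V → Fin (R + 1) ⊕ V
  | .inl i => .inl ⟨i - 1, by omega⟩
  | .inr v => .inl (P v)

/-- The caterpillar. -/
def catT (P : V → Fin (R + 1)) : SimpleGraph (Fin (R + 1) ⊕ V) where
  Adj x y := x ≠ y ∧ ((x ≠ .inl 0 ∧ catPar P x = y) ∨ (y ≠ .inl 0 ∧ catPar P y = x))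
  symm := ⟨fun x y h => ⟨h.1.symm, h.2.symm⟩⟩
  loopless := ⟨fun x h => h.1 rfl⟩

lemma catT_adj {P : V → Fin (R + 1)} {x : Fin (R + 1) ⊕ V} (hx : x ≠ .inl 0) :
    (catT P).Adj x (catPar P x) := by
  refine ⟨?_, Or.inl ⟨hx, rfl⟩⟩
  rcases x with i | v
  · intro h
    have h1 : (i : ℕ) = i - 1 := congrArg (fun z : Fin (R + 1) => (z : ℕ)) (Sum.inl.inj h)
    apply hx
    congr 1
    apply Fin.ext
    change (i : ℕ) = 0
    omega
  · simp [catPar]

lemma catT_edge {P : V → Fin (R + 1)} {e : Sym2 (Fin (R + 1) ⊕ V)} (he : e ∈ (catT P).edgeSet) :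
    ∃ x, x ≠ .inl 0 ∧ e = s(x, catPar P x) := by
  induction e with
  | _ a b =>
    rw [SimpleGraph.mem_edgeSet] at he
    rcases he.2 with ⟨h1, h2⟩ | ⟨h1, h2⟩
    · exact ⟨a, h1, by rw [h2]⟩
    · exact ⟨b, h1, by rw [h2, Sym2.eq_swap]⟩

lemma catT_spine {P : V → Fin (R + 1)} {i j : Fin (R + 1)} (h : (j : ℕ) = i + 1) :
    (catT P).Adj (.inl i) (.inl j) := by
  have h1 := catT_adj (P := P) (x := .inl j) (by
    intro h'
    have : (j : ℕ) = 0 := congrArg (fun z : Fin (R + 1) => (z : ℕ)) (Sum.inl.inj h')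
    omega)
  have h2 : catPar P (.inl j) = .inl i := by
    change (Sum.inl ⟨j - 1, _⟩ : Fin (R + 1) ⊕ V) = .inl i
    congr 1
    apply Fin.ext
    change (j : ℕ) - 1 = i
    omega
  rw [h2] at h1
  exact h1.symm

lemma catT_leaf {P : V → Fin (R + 1)} (v : V) : (catT P).Adj (.inr v) (.inl (P v)) :=
  catT_adj (P := P) (x := .inr v) (by simp)

lemma catT_reach (P : V → Fin (R + 1)) : ∀ (n : ℕ) (i : Fin (R + 1)), (i : ℕ) = n →
    (catT P).Reachable (.inl 0) (.inl i) := by
  intro n
  induction n with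
  | zero =>
    intro i hi
    have : i = 0 := Fin.ext hi
    rw [this]
  | succ n ih =>
    intro i hi
    have hn : n < R + 1 := by omega
    have h1 := ih ⟨n, hn⟩ rfl
    exact h1.trans (catT_spine (by simp [hi])).reachable

lemma catT_isTree [Fintype V] (P : V → Fin (R + 1)) : (catT P).IsTree := by
  classical
  have hconn : (catT P).Connected := by
    rw [SimpleGraph.connected_iff_exists_forall_reachable]
    refine ⟨.inl 0, ?_⟩
    rintro (i | v)
    · exact catT_reach P _ i rfl
    · exact (catT_reach P _ (P v) rfl).trans (catT_leaf v).symm.reachable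
  rw [SimpleGraph.isTree_iff_connected_and_card]
  refine ⟨hconn, ?_⟩
  have h1 := hconn.card_vert_le_card_edgeSet_add_one
  have h2 : Nat.card (catT P).edgeSet ≤ (Finset.univ.erase (.inl 0 : Fin (R + 1) ⊕ V)).card := by
    rw [Nat.card_coe_set_eq]
    have : (catT P).edgeSet ⊆
        ↑((Finset.univ.erase (.inl 0 : Fin (R + 1) ⊕ V)).image fun x => s(x, catPar P x)) := by
      intro e he
      obtain ⟨x, hx, rfl⟩ := catT_edge he
      rw [Finset.mem_coe, Finset.mem_image]
      exact ⟨x, Finset.mem_erase.2 ⟨hx, Finset.mem_univ _⟩, rfl⟩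
    refine (Set.ncard_le_ncard this (Finset.finite_toSet _)).trans ?_
    rw [Set.ncard_coe_finset]
    exact Finset.card_image_le
  have h3 : (Finset.univ.erase (.inl 0 : Fin (R + 1) ⊕ V)).card =
      Fintype.card (Fin (R + 1) ⊕ V) - 1 := by
    rw [Finset.card_erase_of_mem (Finset.mem_univ _), Finset.card_univ]
  have h4 : 0 < Fintype.card (Fin (R + 1) ⊕ V) := Fintype.card_pos_iff.2 ⟨.inl 0⟩
  have h5 : Nat.card (Fin (R + 1) ⊕ V) = Fintype.card (Fin (R + 1) ⊕ V) := Nat.card_eq_fintype_card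
  omega

open Classical in
/-- The weights: pendant edges have weight `1/2`, spine edges weight `1`. -/
noncomputable def catW (e : Sym2 (Fin (R + 1) ⊕ V)) : ℝ :=
  if ∃ v, (Sum.inr v : Fin (R + 1) ⊕ V) ∈ e then 1 / 2 else 1

lemma catW_pos (e : Sym2 (Fin (R + 1) ⊕ V)) : 0 < catW e := by
  unfold catW
  split_ifs <;> norm_num

lemma catW_spine (i j : Fin (R + 1)) : catW (V := V) s(.inl i, .inl j) = 1 := by
  unfold catW
  rw [if_neg]
  simp

lemma catW_leaf (v : V) (x : Fin (R + 1) ⊕ V) : catW s(.inr v, x) = 1 / 2 := by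
  unfold catW
  rw [if_pos]
  exact ⟨v, by simp⟩

lemma spine_path (P : V → Fin (R + 1)) : ∀ (n : ℕ) (i j : Fin (R + 1)), (j : ℕ) = i + n →
    ∃ p : (catT P).Walk (.inl i) (.inl j), p.IsPath ∧
      (∀ x ∈ p.support, ∃ k : Fin (R + 1), i ≤ k ∧ x = .inl k) ∧ (p.edges.map catW).sum = n := by
  intro n
  induction n with
  | zero =>
    intro i j hij
    have : j = i := by ext; simpa using hij
    subst this
    refine ⟨.nil, .nil, ?_, by simp⟩
    intro x hx
    simp at hx
    exact ⟨j, le_rfl, hx⟩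
  | succ n ih =>
    intro i j hij
    have hi : (i : ℕ) + 1 < R + 1 := by omega
    obtain ⟨p, hp, hs, hw⟩ := ih ⟨i + 1, hi⟩ j (by simp; omega)
    refine ⟨.cons (catT_spine (by simp)) p, ?_, ?_, ?_⟩
    · rw [SimpleGraph.Walk.cons_isPath_iff]
      refine ⟨hp, ?_⟩
      intro hmem
      obtain ⟨k, hk, hk'⟩ := hs _ hmem
      rw [← Sum.inl.inj hk'] at hk
      have : (i : ℕ) + 1 ≤ i := hk
      omega
    · intro x hx
      rw [SimpleGraph.Walk.support_cons, List.mem_cons] at hx
      rcases hx with rfl | hx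
      · exact ⟨i, le_rfl, rfl⟩
      · obtain ⟨k, hk, hk'⟩ := hs x hx
        refine ⟨k, ?_, hk'⟩
        have : (i : ℕ) + 1 ≤ k := hk
        have : (i : ℕ) ≤ k := by omega
        exact this
    · rw [SimpleGraph.Walk.edges_cons, List.map_cons, List.sum_cons, hw, catW_spine]
      push_cast
      ring

lemma leaf_path (P : V → Fin (R + 1)) {u v : V} (huv : u ≠ v) (h : P u ≤ P v) :
    ∃ p : (catT P).Walk (.inr u) (.inr v), p.IsPath ∧
      (p.edges.map catW).sum = ((P v : ℕ) : ℝ) - ((P u : ℕ) : ℝ) + 1 := by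
  have h' : (P u : ℕ) ≤ P v := h
  obtain ⟨p, hp, hs, hw⟩ := spine_path P ((P v : ℕ) - P u) (P u) (P v) (by omega)
  have hq : (p.concat (catT_leaf (P := P) v).symm).IsPath := by
    apply hp.concat
    intro hmem
    obtain ⟨k, -, hk⟩ := hs _ hmem
    simp at hk
  refine ⟨.cons (catT_leaf u) (p.concat (catT_leaf (P := P) v).symm), ?_, ?_⟩
  · rw [SimpleGraph.Walk.cons_isPath_iff]
    refine ⟨hq, ?_⟩
    rw [SimpleGraph.Walk.support_concat, List.mem_append]
    rintro (hmem | hmem)
    · obtain ⟨k, -, hk⟩ := hs _ hmem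
      simp at hk
    · rw [List.mem_singleton] at hmem
      exact huv (Sum.inr.inj hmem)
  · rw [SimpleGraph.Walk.edges_cons, SimpleGraph.Walk.edges_concat, List.map_cons, List.sum_cons,
      List.concat_eq_append, List.map_append, List.sum_append, hw, catW_leaf]
    rw [List.map_singleton, List.sum_singleton, Sym2.eq_swap, catW_leaf]
    push_cast [Nat.cast_sub h']
    ring

/-- The value of `d` is the weight of any path. -/
lemma LeafTree.d_eq (D : LeafTree V) {u v : V} (p : D.T.Walk (D.leaf u) (D.leaf v))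
    (hp : p.IsPath) : D.d u v = (p.edges.map D.w).sum := by
  unfold LeafTree.d
  have h := (D.tree.existsUnique_path (D.leaf u) (D.leaf v)).choose_spec
  rw [h.2 p hp]

lemma LeafTree.d_symm (D : LeafTree V) (u v : V) : D.d u v = D.d v u := by
  obtain ⟨p, hp, -⟩ := D.tree.existsUnique_path (D.leaf u) (D.leaf v)
  rw [D.d_eq p hp, D.d_eq p.reverse hp.reverse]
  simp [SimpleGraph.Walk.edges_reverse, List.map_reverse, List.sum_reverse]

theorem LeafTree.pcg_adj (D : LeafTree V) (a b : ℝ) (u v : V) :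
    (D.pcg a b).Adj u v ↔ u ≠ v ∧ a ≤ D.d u v ∧ D.d u v ≤ b := by
  unfold LeafTree.pcg
  rw [SimpleGraph.fromRel_adj, D.d_symm v u, or_self]

/-- **Caterpillar realization.** -/
theorem exists_caterpillar [Fintype V] (P : V → Fin (R + 1)) (hR : 1 ≤ R) (h0 : ∃ v, P v = 0)
    (h1 : ∃ v, (P v : ℕ) = R) : ∃ D : LeafTree V, ∀ u v, u ≠ v →
      D.d u v = |((P u : ℕ) : ℝ) - ((P v : ℕ) : ℝ)| + 1 := by
  classical
  have hdeg : ∀ x : Fin (R + 1) ⊕ V, (∃ v : V, (Sum.inr v : Fin (R + 1) ⊕ V) = x) ↔
      ((catT P).neighborSet x).ncard ≤ 1 := by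
    rintro (i | v)
    · constructor
      · rintro ⟨v, hv⟩
        simp at hv
      · intro h
        exfalso
        rw [Set.ncard_le_one_iff] at h
        have hup : ∀ j : Fin (R + 1), (j : ℕ) = i + 1 → (catT P).Adj (.inl i) (.inl j) :=
          fun j hj => catT_spine hj
        have hdn : ∀ j : Fin (R + 1), (i : ℕ) = j + 1 → (catT P).Adj (.inl i) (.inl j) :=
          fun j hj => (catT_spine hj).symm
        by_cases hi0 : (i : ℕ) = 0
        · obtain ⟨v, hv⟩ := h0
          have e1 : (catT P).Adj (.inl i) (.inr v) := by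
            have : i = P v := by rw [hv]; exact Fin.ext hi0
            rw [this]
            exact (catT_leaf v).symm
          have e2 := hup ⟨1, by omega⟩ (by change 1 = (i : ℕ) + 1; omega)
          have := h e1 e2
          simp at this
        · by_cases hiR : (i : ℕ) = R
          · obtain ⟨v, hv⟩ := h1
            have e1 : (catT P).Adj (.inl i) (.inr v) := by
              have : i = P v := by ext; omega
              rw [this]
              exact (catT_leaf v).symm
            have e2 := hdn ⟨i - 1, by omega⟩ (by change (i : ℕ) = i - 1 + 1; omega)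
            have := h e1 e2
            simp at this
          · have e1 := hup ⟨i + 1, by omega⟩ (by simp)
            have e2 := hdn ⟨i - 1, by omega⟩ (by change (i : ℕ) = i - 1 + 1; omega)
            have := h e1 e2
            simp at this
            omega
    · constructor
      · intro _
        rw [Set.ncard_le_one_iff]
        have key : ∀ z, (catT P).Adj (.inr v) z → z = .inl (P v) := by
          intro z hz
          rcases hz.2 with ⟨-, h2⟩ | ⟨-, h2⟩
          · exact h2.symm
          · exfalso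
            rcases z with j | v' <;> simp [catPar] at h2
        intro x y hx hy
        rw [key x hx, key y hy]
      · intro _
        exact ⟨v, rfl⟩
  refine ⟨⟨Fin (R + 1) ⊕ V, inferInstance, catT P, catT_isTree P, catW, fun e _ => catW_pos e,
    Sum.inr, Sum.inr_injective, hdeg⟩, ?_⟩
  intro u v huv
  rcases le_total (P u) (P v) with h | h
  · obtain ⟨p, hp, hw⟩ := leaf_path P huv h
    rw [LeafTree.d_eq _ p hp]
    have h' : ((P u : ℕ) : ℝ) ≤ ((P v : ℕ) : ℝ) := by exact_mod_cast h
    rw [abs_sub_comm, abs_of_nonneg (by linarith)]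
    exact hw
  · obtain ⟨p, hp, hw⟩ := leaf_path P huv.symm h
    rw [LeafTree.d_symm, LeafTree.d_eq _ p hp]
    have h' : ((P v : ℕ) : ℝ) ≤ ((P u : ℕ) : ℝ) := by exact_mod_cast h
    rw [abs_of_nonneg (by linarith)]
    exact hw

end Pool.Agent.H87PCG
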