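import Mathlib
import Pool.Agent.H671R2.PolyAuto

/-!
# Pairwise compatibility graphs and generalized PCG recognition: definitions
-/

namespace Pool.Agent.H87PCG

open Pool.Agent.NPC

/-- A finite tree with positive real edge weights whose leaves (the vertices with at most one
neighbour) are identified with the elements of `V` by the injection `leaf`. -/
structure LeafTree (V : Type) where
  /-- the vertices of the tree -/
  W : Type
  fin : Finite W
  /-- the tree -/
  T : SimpleGraph W
  tree : T.IsTree
  /-- the edge weights -/
  w : Sym2 W → ℝ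
  pos : ∀ e ∈ T.edgeSet, 0 < w e
  /-- the identification of `V` with the leaves -/
  leaf : V → W
  inj : Function.Injective leaf
  leaves : ∀ x, (∃ v, leaf v = x) ↔ (T.neighborSet x).ncard ≤ 1

/-- The sum of the weights on the unique path between the leaves `u` and `v`. -/
noncomputable def LeafTree.d {V : Type} (D : LeafTree V) (u v : V) : ℝ :=
  ((D.tree.existsUnique_path (D.leaf u) (D.leaf v)).choose.edges.map D.w).sum

/-- The pairwise compatibility graph `PCG(T, a, b)`. -/
def LeafTree.pcg {V : Type} (D : LeafTree V) (a b : ℝ) : SimpleGraph V :=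
  SimpleGraph.fromRel fun u v => a ≤ D.d u v ∧ D.d u v ≤ b

/-- There are a tree and `0 ≤ a ≤ b` such that `PCG(T, a, b)` contains every edge of `G` and no
pair of `S`. -/
def GenRealizable {V : Type} (G S : SimpleGraph V) : Prop :=
  ∃ (D : LeafTree V) (a b : ℝ), 0 ≤ a ∧ a ≤ b ∧ G ≤ D.pcg a b ∧ Disjoint S (D.pcg a b)

/-- Generalized PCG recognition, as a decision problem on pairs of adjacency matrices: the first
matrix is the adjacency matrix of a graph `G` on `Fin n`, the second is the matrix of a set `S` of
non-edges of `G`, and `(G, S)` is realizable. -/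
def GenPCG (p : List (List Bool) × List (List Bool)) : Prop :=
  ∃ (n : ℕ) (G S : SimpleGraph (Fin n)), R671.adjMatrix G = p.1 ∧ R671.adjMatrix S = p.2 ∧
    S ≤ Gᶜ ∧ GenRealizable G S

end Pool.Agent.H87PCG
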