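import Pool.Agent.H87PCG.Cat
import Pool.Agent.H221R2.WTree

/-!
# Near pairs between two cliques, and transversals avoiding them
-/

namespace Pool.Agent.H87PCG

/-- A symmetric function with the four-point condition. -/
structure FP {X : Type} (d : X → X → ℝ) : Prop where
  symm : ∀ x y, d x y = d y x
  self : ∀ x, d x x = 0
  four : ∀ x y z u, d x y + d z u ≤ d x z + d y u ∨ d x y + d z u ≤ d x u + d y z

open Pool.Agent.H221R2.WTree in
/-- The leaf distances of a weighted tree satisfy the four-point condition. -/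
theorem LeafTree.fp {V : Type} (D : LeafTree V) : FP D.d := by
  classical
  let d' : D.W → D.W → ℝ := fun x y => ((D.tree.existsUnique_path x y).choose.edges.map D.w).sum
  have h : WT D.T D.w d' := ⟨D.tree, D.pos, fun x y p hp => by
    have h := (D.tree.existsUnique_path x y).choose_spec
    simp only [d']
    rw [h.2 p hp]⟩
  exact ⟨fun x y => h.symm _ _, fun x => h.self _, fun x y z u => h.four' _ _ _ _⟩

/-- A relation such that of two disjoint related pairs exactly one cross pair is related is covered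
by a row and a column. -/
theorem cross_cover (k : ℕ) (N : ℕ → ℕ → Prop)
    (h : ∀ i i' j j', i < k → i' < k → j < k → j' < k → i ≠ i' → j ≠ j' → N i j → N i' j' →
      (N i j' ∧ ¬ N i' j) ∨ (¬ N i j' ∧ N i' j)) :
    ∃ i0 j0, ∀ i < k, ∀ j < k, N i j → i = i0 ∨ j = j0 := by
  classical
  rcases Nat.eq_zero_or_pos k with rfl | hk
  · exact ⟨0, 0, fun i hi => absurd hi (by omega)⟩
  -- rows are nested
  have hA : ∀ i < k, ∀ i' < k, (∀ j < k, N i j → N i' j) ∨ (∀ j < k, N i' j → N i j) := by
    intro i hi i' hi'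
    by_contra hcon
    push Not at hcon
    obtain ⟨⟨j, hj, h1, h2⟩, ⟨j', hj', h3, h4⟩⟩ := hcon
    have hne : i ≠ i' := by rintro rfl; exact h2 h1
    have hne' : j ≠ j' := by rintro rfl; exact h2 h3
    rcases h i i' j j' hi hi' hj hj' hne hne' h1 h3 with h5 | h5
    · exact h4 h5.1
    · exact h2 h5.2
  obtain ⟨i0, hi0, hmax⟩ := Finset.exists_max_image (Finset.range k)
    (fun i => ((Finset.range k).filter (fun j => N i j)).card) ⟨0, Finset.mem_range.2 hk⟩
  rw [Finset.mem_range] at hi0
  have hB : ∀ i < k, ∀ j < k, N i j → N i0 j := by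
    intro i hi
    rcases hA i hi i0 hi0 with h1 | h1
    · exact h1
    · have hsub : (Finset.range k).filter (fun j => N i0 j) ⊆
          (Finset.range k).filter (fun j => N i j) := by
        intro j hj
        rw [Finset.mem_filter, Finset.mem_range] at hj ⊢
        exact ⟨hj.1, h1 j hj.1 hj.2⟩
      have heq := Finset.eq_of_subset_of_card_le hsub (hmax i (Finset.mem_range.2 hi))
      intro j hj hN
      have : j ∈ (Finset.range k).filter (fun j => N i j) :=
        Finset.mem_filter.2 ⟨Finset.mem_range.2 hj, hN⟩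
      rw [← heq] at this
      exact (Finset.mem_filter.1 this).2
  have hC : ∀ i < k, i ≠ i0 → ∀ j < k, ∀ j' < k, N i j → N i j' → j = j' := by
    intro i hi hne j hj j' hj' h1 h2
    by_contra hjj
    rcases h i i0 j j' hi hi0 hj hj' hne hjj h1 (hB i hi j' hj' h2) with h3 | h3
    · exact h3.2 (hB i hi j hj h1)
    · exact h3.1 h2
  by_cases hex : ∃ i1 < k, i1 ≠ i0 ∧ ∃ j0 < k, N i1 j0
  · obtain ⟨i1, hi1, hne1, j0, hj0, hN⟩ := hex
    refine ⟨i0, j0, ?_⟩
    intro i hi j hj hij
    by_cases hii : i = i0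
    · exact Or.inl hii
    right
    by_cases hi1' : i = i1
    · subst hi1'
      exact hC i hi hii j hj j0 hj0 hij hN
    · by_contra hjj
      rcases h i i1 j j0 hi hi1 hj hj0 hi1' hjj hij hN with h3 | h3
      · exact hjj (hC i hi hii j hj j0 hj0 hij h3.1)
      · exact hjj (hC i1 hi1 hne1 j hj j0 hj0 h3.2 hN)
  · refine ⟨i0, 0, ?_⟩
    intro i hi j hj hij
    left
    by_contra hii
    exact hex ⟨i, hi, hii, j, hj, hij⟩

/-- Two cliques without any edge between them: the near pairs lie in a row and a column. -/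
theorem near_cover {X : Type} {d : X → X → ℝ} (hd : FP d) {m M : ℝ} (k : ℕ) (x y : ℕ → X)
    (hx : ∀ i < k, ∀ i' < k, i ≠ i' → m ≤ d (x i) (x i') ∧ d (x i) (x i') ≤ M)
    (hy : ∀ i < k, ∀ i' < k, i ≠ i' → m ≤ d (y i) (y i') ∧ d (y i) (y i') ≤ M)
    (hxy : ∀ i < k, ∀ j < k, ¬ (m ≤ d (x i) (y j) ∧ d (x i) (y j) ≤ M)) :
    ∃ i0 j0, ∀ i < k, ∀ j < k, d (x i) (y j) ≤ M → i = i0 ∨ j = j0 := by
  have hN : ∀ i < k, ∀ j < k, (d (x i) (y j) < m ∨ M < d (x i) (y j)) := by
    intro i hi j hj
    by_contra hcon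
    push Not at hcon
    exact hxy i hi j hj ⟨hcon.1, hcon.2⟩
  have key := cross_cover k (fun i j => d (x i) (y j) < m) (by
    intro i i' j j' hi hi' hj hj' hne hne' h1 h2
    have a1 := hx i hi i' hi' hne
    have a2 := hy j hj j' hj' hne'
    have s1 := hd.symm (x i') (y j)
    have s2 := hd.symm (x i') (y j')
    have f1 := hd.four (x i) (x i') (y j) (y j')
    have f2 := hd.four (x i) (y j') (x i') (y j)
    rw [hd.symm (y j') (y j), hd.symm (y j') (x i')] at f2
    rcases hN i hi j' hj' with h3 | h3 <;> rcases hN i' hi' j hj with h4 | h4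
    · exfalso
      rcases f1 with f1 | f1 <;> linarith
    · exact Or.inl ⟨h3, by linarith⟩
    · exact Or.inr ⟨by linarith, h4⟩
    · exfalso
      rcases f2 with f2 | f2 <;> linarith)
  obtain ⟨i0, j0, h0⟩ := key
  refine ⟨i0, j0, ?_⟩
  intro i hi j hj hle
  apply h0 i hi j hj
  rcases hN i hi j hj with h1 | h1
  · exact h1
  · linarith

/-- A transversal avoiding all bad pairs. -/
theorem exists_transversal {Λ : Type} (bv : List Λ) (k : ℕ) (hk : 2 * bv.length < k)
    (B : Λ → Λ → ℕ → ℕ → Prop)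
    (h : ∀ u v, ∃ i0 j0, ∀ i < k, ∀ j < k, B u v i j → i = i0 ∨ j = j0) :
    ∃ f : Λ → ℕ, (∀ u, f u < k) ∧ ∀ u ∈ bv, ∀ v ∈ bv, ¬ B u v (f u) (f v) := by
  classical
  choose I J hIJ using h
  have hex : ∀ u, ∃ i < k, i ∉ bv.map (fun w => I u w) ++ bv.map (fun w => J w u) := by
    intro u
    by_contra hcon
    push Not at hcon
    have hsub : Finset.range k ⊆
        (bv.map (fun w => I u w) ++ bv.map (fun w => J w u)).toFinset := by
      intro i hi
      rw [List.mem_toFinset]
      exact hcon i (Finset.mem_range.1 hi)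
    have h1 := Finset.card_le_card hsub
    have h2 := List.toFinset_card_le (bv.map (fun w => I u w) ++ bv.map (fun w => J w u))
    rw [Finset.card_range] at h1
    simp only [List.length_append, List.length_map] at h2
    omega
  choose f hf hf' using hex
  refine ⟨f, hf, ?_⟩
  intro u hu v hv hB
  rcases hIJ u v (f u) (hf u) (f v) (hf v) hB with h1 | h1
  · apply hf' u
    rw [List.mem_append]
    left
    rw [List.mem_map]
    exact ⟨v, hv, h1.symm⟩
  · apply hf' v
    rw [List.mem_append]
    right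
    rw [List.mem_map]
    exact ⟨u, hu, h1.symm⟩

end Pool.Agent.H87PCG
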