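import Pool.Agent.H87PCG.Red
import Pool.Agent.R544.Nae3

/-!
# Not-all-equal satisfiability as quartet constraints
-/

namespace Pool.Agent.H87PCG

open Pool.Agent.NPC Pool.Agent.R544 List

/-- elements: `(0, 0)` is `o`; `(j + 1, k)` for `k < 3` is the `k`-th occurrence in clause `j`, and
`(j + 1, 3)` is the auxiliary element of clause `j` -/
abbrev El := ℕ × ℕ

def tx (e : El) (i : ℕ) : Tx := (e.1, e.2, i)
def tA : Tx := (0, 1, 0)
def tB : Tx := (0, 1, 1)

def cA (s : El) : Cn := ((tA, tx s 0), (tx s 1, tB))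
def cB (s t : El) : Cn := ((tx s 0, tx s 1), (tx t 0, tx t 1))
/-- `y` is not between `x` and `z` -/
def cN (x z y : El) : Cn := ((tx x 0, tx z 0), (tx y 0, tx y 1))

def els (φ : N3) : List El := (0, 0) :: (range φ.length ×ˢ range 4).map (fun p => (p.1 + 1, p.2))

def occs (φ : N3) : List (El × ℕ) :=
  φ.zipIdx.flatMap fun p =>
    [((p.2 + 1, 0), p.1.1), ((p.2 + 1, 1), p.1.2.1), ((p.2 + 1, 2), p.1.2.2)]

def clz (φ : N3) : List Cn :=
  (range φ.length).flatMap fun j =>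
    [cN (j + 1, 3) (j + 1, 1) (j + 1, 0), cN (j + 1, 0) (j + 1, 3) (j + 1, 1),
      cN (0, 0) (j + 1, 2) (j + 1, 3), cN (j + 1, 3) (0, 0) (j + 1, 2)]

def cons (φ : N3) : List Cn :=
  (els φ).map cA ++ (((els φ ×ˢ els φ).filter (fun q => !decide (q.1 = q.2))).map
    (fun q => cB q.1 q.2) ++ (clz φ ++ ((occs φ ×ˢ occs φ).filter
      (fun q => decide (q.1.2 = q.2.2))).map (fun q => cN q.1.1 q.2.1 (0, 0))))

theorem mem_els {φ : N3} {s : El} : s ∈ els φ ↔ s = (0, 0) ∨ ∃ j < φ.length, ∃ k < 4,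
    s = (j + 1, k) := by
  unfold els
  rw [mem_cons, mem_map]
  constructor
  · rintro (h | ⟨⟨j, k⟩, h, h'⟩)
    · exact Or.inl h
    · rw [List.mem_product, mem_range, mem_range] at h
      exact Or.inr ⟨j, h.1, k, h.2, h'.symm⟩
  · rintro (h | ⟨j, hj, k, hk, h⟩)
    · exact Or.inl h
    · exact Or.inr ⟨(j, k), by rw [List.mem_product, mem_range, mem_range]; exact ⟨hj, hk⟩, h.symm⟩

theorem mem_occs {φ : N3} {q : El × ℕ} : q ∈ occs φ ↔ ∃ j < φ.length,
    q = ((j + 1, 0), (tr φ j).1) ∨ q = ((j + 1, 1), (tr φ j).2.1) ∨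
      q = ((j + 1, 2), (tr φ j).2.2) := by
  unfold occs
  simp only [mem_flatMap, mem_cons, not_mem_nil, or_false]
  constructor
  · rintro ⟨p, hp, h⟩
    rw [List.mem_zipIdx_iff_getElem?] at hp
    have hlt : p.2 < φ.length := by
      by_contra hcon
      rw [List.getElem?_eq_none (by omega)] at hp
      simp at hp
    have htr : tr φ p.2 = p.1 := by
      unfold tr
      rw [List.getD_eq_getElem?_getD, hp]
      rfl
    refine ⟨p.2, hlt, ?_⟩
    rw [htr]
    exact h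
  · rintro ⟨j, hj, h⟩
    refine ⟨(tr φ j, j), ?_, h⟩
    rw [List.mem_zipIdx_iff_getElem?]
    unfold tr
    rw [List.getD_eq_getElem _ _ hj]
    simp [hj]

theorem mem_clz {φ : N3} {c : Cn} : c ∈ clz φ ↔ ∃ j < φ.length,
    c = cN (j + 1, 3) (j + 1, 1) (j + 1, 0) ∨ c = cN (j + 1, 0) (j + 1, 3) (j + 1, 1) ∨
      c = cN (0, 0) (j + 1, 2) (j + 1, 3) ∨ c = cN (j + 1, 3) (0, 0) (j + 1, 2) := by
  unfold clz
  simp only [mem_flatMap, mem_cons, not_mem_nil, or_false, mem_range]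

theorem mem_cons' {φ : N3} {c : Cn} : c ∈ cons φ ↔ (∃ s ∈ els φ, c = cA s) ∨
    (∃ s ∈ els φ, ∃ t ∈ els φ, s ≠ t ∧ c = cB s t) ∨ c ∈ clz φ ∨
      (∃ p ∈ occs φ, ∃ q ∈ occs φ, p.2 = q.2 ∧ c = cN p.1 q.1 (0, 0)) := by
  unfold cons
  rw [mem_append, mem_append, mem_append, mem_map, mem_map, mem_map]
  apply or_congr
  · exact ⟨fun ⟨s, hs, h⟩ => ⟨s, hs, h.symm⟩, fun ⟨s, hs, h⟩ => ⟨s, hs, h.symm⟩⟩
  apply or_congr
  · constructor
    · rintro ⟨⟨s, t⟩, hq, h⟩
      rw [mem_filter, Bool.not_eq_true', decide_eq_false_iff_not, List.mem_product] at hq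
      exact ⟨s, hq.1.1, t, hq.1.2, hq.2, h.symm⟩
    · rintro ⟨s, hs, t, ht, hst, h⟩
      refine ⟨(s, t), ?_, h.symm⟩
      rw [mem_filter, Bool.not_eq_true', decide_eq_false_iff_not, List.mem_product]
      exact ⟨⟨hs, ht⟩, hst⟩
  apply or_congr Iff.rfl
  constructor
  · rintro ⟨⟨s, t⟩, hq, h⟩
    rw [mem_filter, decide_eq_true_eq, List.mem_product] at hq
    exact ⟨s, hq.1.1, t, hq.1.2, hq.2, h.symm⟩
  · rintro ⟨s, hs, t, ht, hst, h⟩
    refine ⟨(s, t), ?_, h.symm⟩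
    rw [mem_filter, decide_eq_true_eq, List.mem_product]
    exact ⟨⟨hs, ht⟩, hst⟩

/-! ### From a tree metric to an assignment -/

theorem nae_of_sep {φ : N3} {δ : Lb → Lb → ℝ} (hd : FP δ)
    (h : ∀ c ∈ cons φ, Sep δ (0, c.1.1) (0, c.1.2) (0, c.2.1) (0, c.2.2)) : NAE3 φ := by
  classical
  let o : Lb := (0, tA)
  let β : Lb := (0, tB)
  let v : El → ℕ → Lb := fun e i => (0, tx e i)
  have hA : ∀ s ∈ els φ, Sep δ o (v s 0) (v s 1) β := fun s hs =>
    h (cA s) (mem_cons'.2 (Or.inl ⟨s, hs, rfl⟩))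
  have hB : ∀ s ∈ els φ, ∀ t ∈ els φ, s ≠ t → Sep δ (v s 0) (v s 1) (v t 0) (v t 1) :=
    fun s hs t ht hst => h (cB s t) (mem_cons'.2 (Or.inr (Or.inl ⟨s, hs, t, ht, hst, rfl⟩)))
  have hclz : ∀ c ∈ clz φ, Sep δ (0, c.1.1) (0, c.1.2) (0, c.2.1) (0, c.2.2) := fun c hc =>
    h c (mem_cons'.2 (Or.inr (Or.inr (Or.inl hc))))
  have hocc : ∀ p ∈ occs φ, ∀ q ∈ occs φ, p.2 = q.2 →
      Sep δ (v p.1 0) (v q.1 0) (v (0, 0) 0) (v (0, 0) 1) := fun p hp q hq hpq =>
    h (cN p.1 q.1 (0, 0)) (mem_cons'.2 (Or.inr (Or.inr (Or.inr ⟨p, hp, q, hq, hpq, rfl⟩))))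
  let lt : El → El → Prop := fun s t => gp δ o (v s 1) β < gp δ o (v t 0) β
  have htri : ∀ s ∈ els φ, ∀ t ∈ els φ, s ≠ t → lt s t ∨ lt t s := fun s hs t ht hst =>
    trichotomy hd (hA s hs) (hA t ht) (hB s hs t ht hst)
  have htrans : ∀ s ∈ els φ, ∀ t ∈ els φ, ∀ r ∈ els φ, lt s t → lt t r → lt s r := by
    intro s _ t ht r _ h1 h2
    have := (interval hd (hA t ht)).1
    exact lt_trans (lt_trans h1 this) h2
  have hasym : ∀ s ∈ els φ, ∀ t ∈ els φ, lt s t → ¬ lt t s := by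
    intro s hs t ht h1 h2
    have h3 := (interval hd (hA s hs)).1
    have h4 := (interval hd (hA t ht)).1
    simp only [lt] at h1 h2
    linarith
  have hnb : ∀ x ∈ els φ, ∀ y ∈ els φ, ∀ z ∈ els φ, Sep δ (v x 0) (v z 0) (v y 0) (v y 1) →
      ¬ (lt x y ∧ lt y z) ∧ ¬ (lt z y ∧ lt y x) := by
    intro x hx y hy z hz hs
    constructor
    · rintro ⟨h1, h2⟩
      exact not_between hd (hA x hx) (hA y hy) (hA z hz) hs h1 h2
    · rintro ⟨h1, h2⟩
      have hs' : Sep δ (v z 0) (v x 0) (v y 0) (v y 1) := by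
        obtain ⟨g1, g2⟩ := hs
        have s1 := hd.symm (v x 0) (v z 0)
        constructor <;> linarith
      exact not_between hd (hA z hz) (hA y hy) (hA x hx) hs' h1 h2
  have ho : ((0, 0) : El) ∈ els φ := mem_els.2 (Or.inl rfl)
  have hel : ∀ j < φ.length, ∀ k < 4, ((j + 1, k) : El) ∈ els φ := fun j hj k hk =>
    mem_els.2 (Or.inr ⟨j, hj, k, hk, rfl⟩)
  have hne : ∀ j k : ℕ, ((j + 1, k) : El) ≠ (0, 0) := by
    intro j k h
    simp at h
  -- the assignment
  refine (nae3_iff φ).2 ⟨fun x => decide (∃ p ∈ occs φ, p.2 = x ∧ lt p.1 (0, 0)), ?_⟩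
  intro j hj
  have hmem : ∀ p ∈ occs φ, p.1 ∈ els φ := by
    intro p hp
    obtain ⟨j', hj', h'⟩ := mem_occs.1 hp
    rcases h' with rfl | rfl | rfl
    · exact hel j' hj' 0 (by omega)
    · exact hel j' hj' 1 (by omega)
    · exact hel j' hj' 2 (by omega)
  have hneo : ∀ p ∈ occs φ, p.1 ≠ (0, 0) := by
    intro p hp
    obtain ⟨j', hj', h'⟩ := mem_occs.1 hp
    rcases h' with rfl | rfl | rfl <;> exact hne _ _
  have hval : ∀ p ∈ occs φ, (∃ q ∈ occs φ, q.2 = p.2 ∧ lt q.1 (0, 0)) ↔ lt p.1 (0, 0) := by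
    intro p hp
    constructor
    · rintro ⟨q, hq, hqp, hlt⟩
      rcases htri p.1 (hmem p hp) (0, 0) ho (hneo p hp) with h1 | h1
      · exact h1
      · exfalso
        exact (hnb q.1 (hmem q hq) (0, 0) ho p.1 (hmem p hp) (hocc q hq p hp hqp)).1 ⟨hlt, h1⟩
    · intro h1
      exact ⟨p, hp, rfl, h1⟩
  have oa : (((j + 1, 0), (tr φ j).1) : El × ℕ) ∈ occs φ := mem_occs.2 ⟨j, hj, Or.inl rfl⟩
  have ob : (((j + 1, 1), (tr φ j).2.1) : El × ℕ) ∈ occs φ :=
    mem_occs.2 ⟨j, hj, Or.inr (Or.inl rfl)⟩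
  have oc : (((j + 1, 2), (tr φ j).2.2) : El × ℕ) ∈ occs φ :=
    mem_occs.2 ⟨j, hj, Or.inr (Or.inr rfl)⟩
  rintro ⟨e1, e2⟩
  rw [decide_eq_decide] at e1 e2
  rw [hval _ oa, hval _ ob] at e1
  rw [hval _ ob, hval _ oc] at e2
  simp only at e1 e2
  have a := hel j hj 0 (by omega)
  have b := hel j hj 1 (by omega)
  have c := hel j hj 2 (by omega)
  have y := hel j hj 3 (by omega)
  have k1 := hnb _ y _ a _ b (hclz _ (mem_clz.2 ⟨j, hj, Or.inl rfl⟩))
  have k2 := hnb _ a _ b _ y (hclz _ (mem_clz.2 ⟨j, hj, Or.inr (Or.inl rfl)⟩))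
  have k3 := hnb _ ho _ y _ c (hclz _ (mem_clz.2 ⟨j, hj, Or.inr (Or.inr (Or.inl rfl))⟩))
  have k4 := hnb _ y _ c _ ho (hclz _ (mem_clz.2 ⟨j, hj, Or.inr (Or.inr (Or.inr rfl))⟩))
  have t1 := htri _ a _ ho (hne j 0)
  have t2 := htri _ b _ ho (hne j 1)
  have t3 := htri _ c _ ho (hne j 2)
  have t4 := htri _ y _ ho (hne j 3)
  have t5 := htri _ a _ b (by simp)
  have t8 := htri _ c _ y (by simp)
  rcases t1 with t1 | t1
  · have t2' := e1.1 t1
    have t3' := e2.1 t2'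
    have hyo : lt (j + 1, 3) (0, 0) := by
      rcases t4 with t4 | t4
      · exact t4
      exfalso
      rcases t5 with t5 | t5
      · exact k2.1 ⟨t5, htrans _ b _ ho _ y t2' t4⟩
      · exact k1.2 ⟨t5, htrans _ a _ ho _ y t1 t4⟩
    rcases t8 with t8 | t8
    · exact k3.2 ⟨t8, hyo⟩
    · exact k4.1 ⟨t8, t3'⟩
  · have n1 : ¬ lt (j + 1, 0) (0, 0) := fun h' => hasym _ a _ ho h' t1
    have t2' : lt (0, 0) (j + 1, 1) := by
      rcases t2 with t2 | t2
      · exact absurd (e1.2 t2) n1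
      · exact t2
    have t3' : lt (0, 0) (j + 1, 2) := by
      rcases t3 with t3 | t3
      · exact absurd (e1.2 (e2.2 t3)) n1
      · exact t3
    have hyo : lt (0, 0) (j + 1, 3) := by
      rcases t4 with t4 | t4
      · exfalso
        rcases t5 with t5 | t5
        · exact k1.1 ⟨htrans _ y _ ho _ a t4 t1, t5⟩
        · exact k2.2 ⟨htrans _ y _ ho _ b t4 t2', t5⟩
      · exact t4
    rcases t8 with t8 | t8
    · exact k4.2 ⟨t3', t8⟩
    · exact k3.1 ⟨hyo, t8⟩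

/-! ### From an assignment to positions -/

/-- is occurrence (or auxiliary element) `k` of clause `j` on the left? -/
def lft (τ : ℕ → Bool) (t : ℕ × ℕ × ℕ) (k : ℕ) : Bool :=
  if k = 0 then τ t.1 else if k = 1 then τ t.2.1 else if k = 2 then τ t.2.2 else !τ t.2.2

/-- the offset -/
def off (τ : ℕ → Bool) (t : ℕ × ℕ × ℕ) (k : ℕ) : ℕ :=
  if k = 0 then (if lft τ t 0 then 0 else if lft τ t 1 then 2 else 0)
  else if k = 1 then (if lft τ t 1 then (if lft τ t 0 then 2 else 0) else 2)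
  else if k = 2 then 3 else 1

/-- the rank -/
def rk (φ : N3) (τ : ℕ → Bool) (e : El) : ℕ :=
  if e.1 = 0 then 4 * φ.length
  else if lft τ (tr φ (e.1 - 1)) e.2 then 4 * (e.1 - 1) + off τ (tr φ (e.1 - 1)) e.2
  else 4 * φ.length + 1 + 4 * (e.1 - 1) + off τ (tr φ (e.1 - 1)) e.2

theorem off_le (τ : ℕ → Bool) (t : ℕ × ℕ × ℕ) (k : ℕ) : off τ t k ≤ 3 := by
  unfold off
  split_ifs <;> omega

theorem off_inj (τ : ℕ → Bool) (t : ℕ × ℕ × ℕ) {k k' : ℕ} (hk : k < 4) (hk' : k' < 4)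
    (hne : k ≠ k') (hl : lft τ t k = lft τ t k') : off τ t k ≠ off τ t k' := by
  unfold off lft at *
  generalize τ t.1 = x at *
  generalize τ t.2.1 = y at *
  generalize τ t.2.2 = z at *
  revert hl
  revert x y z
  interval_cases k <;> interval_cases k' <;> first | exact absurd rfl hne | decide

theorem rk_o (φ : N3) (τ : ℕ → Bool) : rk φ τ (0, 0) = 4 * φ.length := by simp [rk]

theorem rk_j (φ : N3) (τ : ℕ → Bool) (j k : ℕ) : rk φ τ (j + 1, k) =
    if lft τ (tr φ j) k then 4 * j + off τ (tr φ j) k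
      else 4 * φ.length + 1 + 4 * j + off τ (tr φ j) k := by
  simp [rk]

theorem rk_ne {φ : N3} {τ : ℕ → Bool} {s t : El} (hs : s ∈ els φ) (ht : t ∈ els φ)
    (hst : s ≠ t) : rk φ τ s ≠ rk φ τ t := by
  rw [mem_els] at hs ht
  rcases hs with rfl | ⟨j, hj, k, hk, rfl⟩ <;> rcases ht with rfl | ⟨j', hj', k', hk', rfl⟩
  · exact absurd rfl hst
  · have := off_le τ (tr φ j') k'
    rw [rk_o, rk_j]
    split_ifs <;> omega
  · have := off_le τ (tr φ j) k
    rw [rk_o, rk_j]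
    split_ifs <;> omega
  · have h1 := off_le τ (tr φ j') k'
    have h2 := off_le τ (tr φ j) k
    rw [rk_j, rk_j]
    by_cases hjj : j = j'
    · subst hjj
      have hkk : k ≠ k' := by
        rintro rfl
        exact hst rfl
      have h3 := off_inj τ (tr φ j) hk hk' hkk
      split_ifs with h4 h5 h5
      · have := h3 (by rw [h4, h5])
        omega
      · omega
      · omega
      · have := h3 (by simp_all)
        omega
    · split_ifs <;> omega

theorem rk_le {φ : N3} {τ : ℕ → Bool} {s : El} (hs : s ∈ els φ) :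
    rk φ τ s ≤ 8 * φ.length := by
  rw [mem_els] at hs
  rcases hs with rfl | ⟨j, hj, k, hk, rfl⟩
  · rw [rk_o]
    omega
  · have := off_le τ (tr φ j) k
    rw [rk_j]
    split_ifs <;> omega

/-- the position of a taxon -/
def ps (φ : N3) (τ : ℕ → Bool) (x : Tx) : ℕ :=
  if x = tA then 0 else if x = tB then 32 * φ.length + 8 else 4 * rk φ τ (x.1, x.2.1) + 2 + 2 * x.2.2

theorem ps_tA (φ : N3) (τ : ℕ → Bool) : ps φ τ tA = 0 := by simp [ps]
theorem ps_tB (φ : N3) (τ : ℕ → Bool) : ps φ τ tB = 32 * φ.length + 8 := by simp [ps, tA, tB]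
theorem ps_tx {φ : N3} (τ : ℕ → Bool) {s : El} (hs : s ∈ els φ) (i : ℕ) :
    ps φ τ (tx s i) = 4 * rk φ τ s + 2 + 2 * i := by
  have h1 : tx s i ≠ tA := by
    rw [mem_els] at hs
    rcases hs with rfl | ⟨j, hj, k, hk, rfl⟩ <;> simp [tx, tA]
  have h2 : tx s i ≠ tB := by
    rw [mem_els] at hs
    rcases hs with rfl | ⟨j, hj, k, hk, rfl⟩ <;> simp [tx, tB]
  unfold ps
  rw [if_neg h1, if_neg h2]
  rfl

theorem sat_of_nae {φ : N3} {τ : ℕ → Bool} (hτ : ∀ j < φ.length,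
    ¬ (τ (tr φ j).1 = τ (tr φ j).2.1 ∧ τ (tr φ j).2.1 = τ (tr φ j).2.2)) :
    GenPCG (inst (32 * φ.length + 8) (cons φ)) := by
  have ho : ((0, 0) : El) ∈ els φ := mem_els.2 (Or.inl rfl)
  have hel : ∀ j < φ.length, ∀ k < 4, ((j + 1, k) : El) ∈ els φ := fun j hj k hk =>
    mem_els.2 (Or.inr ⟨j, hj, k, hk, rfl⟩)
  have hmem : ∀ p ∈ occs φ, p.1 ∈ els φ := by
    intro p hp
    obtain ⟨j', hj', h'⟩ := mem_occs.1 hp
    rcases h' with rfl | rfl | rfl
    · exact hel j' hj' 0 (by omega)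
    · exact hel j' hj' 1 (by omega)
    · exact hel j' hj' 2 (by omega)
  -- the shape of the constraints
  have hshape : ∀ c ∈ cons φ, (∃ s ∈ els φ, c = cA s) ∨
      (∃ s ∈ els φ, ∃ t ∈ els φ, s ≠ t ∧ c = cB s t) ∨
      (∃ x ∈ els φ, ∃ z ∈ els φ, ∃ y ∈ els φ, c = cN x z y ∧
        ((rk φ τ x < rk φ τ y ∧ rk φ τ z < rk φ τ y) ∨
          (rk φ τ y < rk φ τ x ∧ rk φ τ y < rk φ τ z))) := by
    intro c hc
    rw [mem_cons'] at hc
    rcases hc with h | h | h | ⟨p, hp, q, hq, hpq, rfl⟩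
    · exact Or.inl h
    · exact Or.inr (Or.inl h)
    · right; right
      rw [mem_clz] at h
      obtain ⟨j, hj, h⟩ := h
      have a := hel j hj 0 (by omega)
      have b := hel j hj 1 (by omega)
      have c := hel j hj 2 (by omega)
      have y := hel j hj 3 (by omega)
      have key := hτ j hj
      have r0 : rk φ τ (0, 0) = 4 * φ.length := by simp [rk]
      have r1 : ∀ k, rk φ τ (j + 1, k) = if lft τ (tr φ j) k then 4 * j + off τ (tr φ j) k
          else 4 * φ.length + 1 + 4 * j + off τ (tr φ j) k := by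
        intro k
        simp [rk]
      rcases h with rfl | rfl | rfl | rfl
      · refine ⟨_, y, _, b, _, a, rfl, ?_⟩
        rw [r1, r1, r1]
        unfold off lft
        rcases h1 : τ (tr φ j).1 <;> rcases h2 : τ (tr φ j).2.1 <;>
          rcases h3 : τ (tr φ j).2.2 <;> simp_all <;> omega
      · refine ⟨_, a, _, y, _, b, rfl, ?_⟩
        rw [r1, r1, r1]
        unfold off lft
        rcases h1 : τ (tr φ j).1 <;> rcases h2 : τ (tr φ j).2.1 <;>
          rcases h3 : τ (tr φ j).2.2 <;> simp_all <;> omega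
      · refine ⟨_, ho, _, c, _, y, rfl, ?_⟩
        rw [r0, r1, r1]
        unfold off lft
        rcases h1 : τ (tr φ j).1 <;> rcases h2 : τ (tr φ j).2.1 <;>
          rcases h3 : τ (tr φ j).2.2 <;> simp_all <;> omega
      · refine ⟨_, y, _, ho, _, c, rfl, ?_⟩
        rw [r0, r1, r1]
        unfold off lft
        rcases h1 : τ (tr φ j).1 <;> rcases h2 : τ (tr φ j).2.1 <;>
          rcases h3 : τ (tr φ j).2.2 <;> simp_all <;> omega
    · right; right
      refine ⟨_, hmem p hp, _, hmem q hq, _, ho, rfl, ?_⟩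
      have r0 : rk φ τ (0, 0) = 4 * φ.length := by simp [rk]
      have hr : ∀ p ∈ occs φ, (τ p.2 = true → rk φ τ p.1 < 4 * φ.length) ∧
          (τ p.2 = false → 4 * φ.length < rk φ τ p.1) := by
        intro p hp
        obtain ⟨j, hj, h⟩ := mem_occs.1 hp
        have h3 := off_le τ (tr φ j)
        rcases h with rfl | rfl | rfl
        · have h4 := h3 0
          constructor
          · intro h
            simp [rk, lft, h]
            omega
          · intro h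
            simp [rk, lft, h]
            omega
        · have h4 := h3 1
          constructor
          · intro h
            simp [rk, lft, h]
            omega
          · intro h
            simp [rk, lft, h]
            omega
        · have h4 := h3 2
          constructor
          · intro h
            simp [rk, lft, h]
            omega
          · intro h
            simp [rk, lft, h]
            omega
      have hp' := hr p hp
      have hq' := hr q hq
      rw [r0]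
      rw [hpq] at hp'
      cases hv : τ q.2
      · right
        exact ⟨hp'.2 hv, hq'.2 hv⟩
      · left
        exact ⟨hp'.1 hv, hq'.1 hv⟩
  apply realize (ps φ τ) (R := 32 * φ.length + 8) (by omega) le_rfl
  · intro c hc
    rcases hshape c hc with ⟨s, hs, rfl⟩ | ⟨s, hs, t, ht, hst, rfl⟩ | ⟨x, hx, z, hz, y, hy, rfl, -⟩
    · have h1 := rk_le (τ := τ) hs
      simp only [cA, ps_tA, ps_tB, ps_tx τ hs]
      omega
    · have h1 := rk_le (τ := τ) hs
      have h2 := rk_le (τ := τ) ht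
      simp only [cB, ps_tx τ hs, ps_tx τ ht]
      omega
    · have h1 := rk_le (τ := τ) hx
      have h2 := rk_le (τ := τ) hy
      have h3 := rk_le (τ := τ) hz
      simp only [cN, ps_tx τ hx, ps_tx τ hy, ps_tx τ hz]
      omega
  · intro c hc
    rcases hshape c hc with ⟨s, hs, rfl⟩ | ⟨s, hs, t, ht, hst, rfl⟩ |
      ⟨x, hx, z, hz, y, hy, rfl, h⟩
    · have h1 := rk_le (τ := τ) hs
      simp only [cA, ps_tA, ps_tB, ps_tx τ hs]
      omega
    · have h1 := rk_ne (τ := τ) hs ht hst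
      simp only [cB, ps_tx τ hs, ps_tx τ ht]
      omega
    · simp only [cN, ps_tx τ hx, ps_tx τ hy, ps_tx τ hz]
      omega
  · exact ⟨cA (0, 0), mem_cons'.2 (Or.inl ⟨_, ho, rfl⟩), ps_tA φ τ⟩
  · exact ⟨cA (0, 0), mem_cons'.2 (Or.inl ⟨_, ho, rfl⟩), ps_tB φ τ⟩

/-- **Correctness of the reduction.** -/
theorem nae_iff (φ : N3) : NAE3 φ ↔ GenPCG (inst (32 * φ.length + 8) (cons φ)) := by
  constructor
  · intro h
    obtain ⟨τ, hτ⟩ := (nae3_iff φ).1 h
    exact sat_of_nae hτ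
  · intro h
    obtain ⟨δ, hd, hs⟩ := extract h
    exact nae_of_sep hd hs

end Pool.Agent.H87PCG
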