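import Pool.Agent.H87PCG.Nae

/-!
# The reduction is computed in polynomial time
-/

namespace Pool.Agent.H87PCG

open Pool.Agent.NPC Pool.Agent.R544 List

variable {α : Type} [TEnc α]

theorem poly_cv {L i s t : α → ℕ} {a a' : α → Tx} (hL : Poly L) (hi : Poly i) (hs : Poly s)
    (ht : Poly t) (ha : Poly a) (ha' : Poly a') :
    Poly (fun x => cv (L x) (i x) (s x) (a x) (a' x) (t x)) := by
  unfold cv
  fun_prop

theorem poly_c0 {L t : α → ℕ} {p : α → Cn × ℕ} (hL : Poly L) (hp : Poly p) (ht : Poly t) :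
    Poly (fun x => c0 (L x) (p x) (t x)) := by
  unfold c0
  exact poly_cv hL (by fun_prop) (by fun_prop) ht (by fun_prop) (by fun_prop)

theorem poly_c1 {L t : α → ℕ} {p : α → Cn × ℕ} (hL : Poly L) (hp : Poly p) (ht : Poly t) :
    Poly (fun x => c1 (L x) (p x) (t x)) := by
  unfold c1
  exact poly_cv hL (by fun_prop) (by fun_prop) ht (by fun_prop) (by fun_prop)

attribute [fun_prop] poly_cv poly_c0 poly_c1

theorem poly_eL {L : α → ℕ} {C : α → List Cn} (hL : UPoly L) (hC : Poly C) :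
    Poly (fun x => eL (L x) (C x)) := by
  have hL' := hL.toPoly
  obtain ⟨r, hr, hrr⟩ : ∃ r : α → List ℕ, Poly r ∧ ∀ a, r a = range (L a + 1) :=
    ⟨_, (hL.add (UPoly.const 1)).range, fun _ => rfl⟩
  unfold eL
  simp only [← hrr]
  fun_prop

theorem poly_fL {L : α → ℕ} {C : α → List Cn} (hL : UPoly L) (hC : Poly C) :
    Poly (fun x => fL (L x) (C x)) := by
  have hL' := hL.toPoly
  obtain ⟨r, hr, hrr⟩ : ∃ r : α → List ℕ, Poly r ∧ ∀ a, r a = range (L a + 2) :=
    ⟨_, (hL.add (UPoly.const 2)).range, fun _ => rfl⟩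
  unfold fL
  simp only [← hrr]
  fun_prop

theorem poly_bL {L : α → ℕ} {C : α → List Cn} (hL : UPoly L) (hC : Poly C) :
    Poly (fun x => bL (L x) (C x)) := by
  have hL' := hL.toPoly
  obtain ⟨r, hr, hrr⟩ : ∃ r : α → List ℕ, Poly r ∧ ∀ a, r a = range (L a + 2) :=
    ⟨_, (hL.add (UPoly.const 2)).range, fun _ => rfl⟩
  unfold bL
  simp only [← hrr]
  fun_prop

theorem poly_vL {L : α → ℕ} {C : α → List Cn} (hL : UPoly L) (hC : Poly C) :
    Poly (fun x => vL (L x) (C x)) := by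
  have h1 := poly_bL hL hC
  unfold vL
  exact R671.poly_product h1 (((UPoly.const 2).mul (UPoly.length h1)).add (UPoly.const 1)).range

theorem poly_inst {L : α → ℕ} {C : α → List Cn} (hL : UPoly L) (hC : Poly C) :
    Poly (fun x => inst (L x) (C x)) := by
  obtain ⟨e, he, hee⟩ : ∃ e : α → List (Lb × Lb), Poly e ∧ ∀ a, e a = eL (L a) (C a) :=
    ⟨_, poly_eL hL hC, fun _ => rfl⟩
  obtain ⟨f, hf, hff⟩ : ∃ e : α → List (Lb × Lb), Poly e ∧ ∀ a, e a = fL (L a) (C a) :=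
    ⟨_, poly_fL hL hC, fun _ => rfl⟩
  obtain ⟨v, hv, hvv⟩ : ∃ e : α → List (Lb × ℕ), Poly e ∧ ∀ a, e a = vL (L a) (C a) :=
    ⟨_, poly_vL hL hC, fun _ => rfl⟩
  unfold inst adE adF
  simp only [← hee, ← hff, ← hvv]
  fun_prop

theorem poly_els {f : α → N3} (hf : Poly f) : Poly (fun x => els (f x)) := by
  obtain ⟨r, hr, hrr⟩ : ∃ r : α → List ℕ, Poly r ∧ ∀ a, r a = range (f a).length :=
    ⟨_, (UPoly.length hf).range, fun _ => rfl⟩
  unfold els
  simp only [← hrr]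
  fun_prop

theorem poly_occs {f : α → N3} (hf : Poly f) : Poly (fun x => occs (f x)) := by
  unfold occs
  fun_prop

theorem poly_clz {f : α → N3} (hf : Poly f) : Poly (fun x => clz (f x)) := by
  obtain ⟨r, hr, hrr⟩ : ∃ r : α → List ℕ, Poly r ∧ ∀ a, r a = range (f a).length :=
    ⟨_, (UPoly.length hf).range, fun _ => rfl⟩
  unfold clz cN tx
  simp only [← hrr]
  fun_prop

theorem poly_cons {f : α → N3} (hf : Poly f) : Poly (fun x => cons (f x)) := by
  have h1 := poly_els hf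
  have h2 := poly_occs hf
  have h3 := poly_clz hf
  obtain ⟨e, he, hee⟩ : ∃ e : α → List El, Poly e ∧ ∀ a, e a = els (f a) :=
    ⟨_, h1, fun _ => rfl⟩
  obtain ⟨o, ho, hoo⟩ : ∃ e : α → List (El × ℕ), Poly e ∧ ∀ a, e a = occs (f a) :=
    ⟨_, h2, fun _ => rfl⟩
  obtain ⟨c, hc, hcc⟩ : ∃ e : α → List Cn, Poly e ∧ ∀ a, e a = clz (f a) :=
    ⟨_, h3, fun _ => rfl⟩
  unfold cons cN cB cA tx
  simp only [← hee, ← hoo, ← hcc]
  fun_prop

theorem poly_red : Poly (fun φ : N3 => inst (32 * φ.length + 8) (cons φ)) :=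
  poly_inst (((UPoly.const 32).mul (UPoly.length Poly.id)).add (UPoly.const 8)) (poly_cons Poly.id)

/-- Generalized PCG recognition is NP-hard. -/
theorem genPCG_hard : NPHardP GenPCG :=
  (HardPr.trans (Pr' := fun _ => True) hardPr_NAE3 poly_red (fun _ _ => trivial)
    (fun φ _ => nae_iff φ)).toHardI.toNPHardP

end Pool.Agent.H87PCG
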