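import Pool.Agent.H87PCG.Sep

/-!
# The reduction: from quartet constraints to generalized PCG recognition
-/

namespace Pool.Agent.H87PCG

open Pool.Agent.NPC List

/-- taxa -/
abbrev Tx := ℕ × ℕ × ℕ
/-- labels of the vertices before the blow-up: `(0, taxon)` or `(i + 1, σ, t, 0)`, the `t`-th inner
vertex of the chain of side `σ` of the `i`-th constraint -/
abbrev Lb := ℕ × ℕ × ℕ × ℕ
/-- constraints `{a, a'} | {b, b'}` -/
abbrev Cn := (Tx × Tx) × (Tx × Tx)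

/-- The `t`-th vertex of the chain of side `σ` of the `i`-th constraint, from `a` to `a'`. -/
def cv (L i σ : ℕ) (a a' : Tx) (t : ℕ) : Lb :=
  if t = 0 then (0, a) else if t ≤ L then (i + 1, σ, t, 0) else (0, a')

def c0 (L : ℕ) (p : Cn × ℕ) (t : ℕ) : Lb := cv L p.2 0 p.1.1.1 p.1.1.2 t
def c1 (L : ℕ) (p : Cn × ℕ) (t : ℕ) : Lb := cv L p.2 1 p.1.2.1 p.1.2.2 t

/-- the chain edges -/
def eL (L : ℕ) (C : List Cn) : List (Lb × Lb) :=
  C.zipIdx.flatMap fun p => (range (L + 1)).map (fun t => (c0 L p t, c0 L p (t + 1))) ++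
    (range (L + 1)).map (fun t => (c1 L p t, c1 L p (t + 1)))

/-- the forbidden pairs -/
def fL (L : ℕ) (C : List Cn) : List (Lb × Lb) :=
  C.zipIdx.flatMap fun p => (range (L + 2)).map (c0 L p) ×ˢ (range (L + 2)).map (c1 L p)

/-- the base vertices -/
def bL (L : ℕ) (C : List Cn) : List Lb :=
  C.zipIdx.flatMap fun p => (range (L + 2)).map (c0 L p) ++ (range (L + 2)).map (c1 L p)

/-- the vertices -/
def vL (L : ℕ) (C : List Cn) : List (Lb × ℕ) := bL L C ×ˢ range (2 * (bL L C).length + 1)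

def adE (L : ℕ) (C : List Cn) (u v : Lb × ℕ) : Bool :=
  !decide (u = v) && (decide (u.1 = v.1) ||
    (decide ((u.1, v.1) ∈ eL L C) || decide ((v.1, u.1) ∈ eL L C)))

def adF (L : ℕ) (C : List Cn) (u v : Lb × ℕ) : Bool :=
  !decide (u = v) && (decide ((u.1, v.1) ∈ fL L C) || decide ((v.1, u.1) ∈ fL L C))

/-- the instance of generalized PCG recognition -/
def inst (L : ℕ) (C : List Cn) : List (List Bool) × List (List Bool) :=
  ((vL L C).map (fun u => (vL L C).map (fun w => adE L C u w)),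
    (vL L C).map (fun u => (vL L C).map (fun w => adF L C u w)))

theorem adE_symm (L : ℕ) (C : List Cn) (u v : Lb × ℕ) : adE L C u v = adE L C v u := by
  unfold adE
  rw [show decide (u = v) = decide (v = u) from decide_eq_decide.2 eq_comm,
    show decide (u.1 = v.1) = decide (v.1 = u.1) from decide_eq_decide.2 eq_comm,
    Bool.or_comm (decide ((u.1, v.1) ∈ eL L C))]

theorem adF_symm (L : ℕ) (C : List Cn) (u v : Lb × ℕ) : adF L C u v = adF L C v u := by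
  unfold adF
  rw [show decide (u = v) = decide (v = u) from decide_eq_decide.2 eq_comm,
    Bool.or_comm (decide ((u.1, v.1) ∈ fL L C))]

theorem adE_irr (L : ℕ) (C : List Cn) (u : Lb × ℕ) : adE L C u u = false := by simp [adE]
theorem adF_irr (L : ℕ) (C : List Cn) (u : Lb × ℕ) : adF L C u u = false := by simp [adF]

/-- the graph of the instance -/
def gE (L : ℕ) (C : List Cn) : SimpleGraph (Fin (vL L C).length) :=
  R671.listGraph (vL L C) (adE L C) (adE_symm L C) (adE_irr L C)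

/-- the forbidden graph of the instance -/
def gF (L : ℕ) (C : List Cn) : SimpleGraph (Fin (vL L C).length) :=
  R671.listGraph (vL L C) (adF L C) (adF_symm L C) (adF_irr L C)

theorem inst_iff (L : ℕ) (C : List Cn) :
    GenPCG (inst L C) ↔ gF L C ≤ (gE L C)ᶜ ∧ GenRealizable (gE L C) (gF L C) := by
  unfold inst gE gF
  have e1 := R671.adjMatrix_listGraph (vL L C) (adE L C) (adE_symm L C) (adE_irr L C)
  have e2 := R671.adjMatrix_listGraph (vL L C) (adF L C) (adF_symm L C) (adF_irr L C)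
  constructor
  · rintro ⟨n, G, S, h1, h2, h3, h4⟩
    have hn : n = (vL L C).length := by
      have := congrArg List.length h1
      simpa [R671.adjMatrix] using this
    subst hn
    have hG := R671.adjMatrix_inj (h1.trans e1.symm)
    have hS := R671.adjMatrix_inj (h2.trans e2.symm)
    rw [hG, hS] at h3 h4
    exact ⟨h3, h4⟩
  · rintro ⟨h3, h4⟩
    exact ⟨_, _, _, e1, e2, h3, h4⟩

theorem mem_eL {L : ℕ} {C : List Cn} {q : Lb × Lb} : q ∈ eL L C ↔ ∃ p ∈ C.zipIdx, ∃ t ≤ L,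
    q = (c0 L p t, c0 L p (t + 1)) ∨ q = (c1 L p t, c1 L p (t + 1)) := by
  unfold eL
  simp only [mem_flatMap, mem_append, mem_map, mem_range]
  constructor
  · rintro ⟨p, hp, ⟨t, ht, h⟩ | ⟨t, ht, h⟩⟩
    · exact ⟨p, hp, t, by omega, Or.inl h.symm⟩
    · exact ⟨p, hp, t, by omega, Or.inr h.symm⟩
  · rintro ⟨p, hp, t, ht, h | h⟩
    · exact ⟨p, hp, Or.inl ⟨t, by omega, h.symm⟩⟩
    · exact ⟨p, hp, Or.inr ⟨t, by omega, h.symm⟩⟩

theorem mem_fL {L : ℕ} {C : List Cn} {q : Lb × Lb} : q ∈ fL L C ↔ ∃ p ∈ C.zipIdx, ∃ s ≤ L + 1,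
    ∃ t ≤ L + 1, q = (c0 L p s, c1 L p t) := by
  unfold fL
  rcases q with ⟨q1, q2⟩
  simp only [mem_flatMap, List.mem_product, mem_map, mem_range]
  constructor
  · rintro ⟨p, hp, ⟨s, hs, h⟩, ⟨t, ht, h'⟩⟩
    exact ⟨p, hp, s, by omega, t, by omega, by rw [h, h']⟩
  · rintro ⟨p, hp, s, hs, t, ht, h⟩
    rw [Prod.mk.injEq] at h
    exact ⟨p, hp, ⟨s, by omega, h.1.symm⟩, ⟨t, by omega, h.2.symm⟩⟩

theorem mem_bL {L : ℕ} {C : List Cn} {q : Lb} : q ∈ bL L C ↔ ∃ p ∈ C.zipIdx, ∃ t ≤ L + 1,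
    q = c0 L p t ∨ q = c1 L p t := by
  unfold bL
  simp only [mem_flatMap, mem_append, mem_map, mem_range]
  constructor
  · rintro ⟨p, hp, ⟨t, ht, h⟩ | ⟨t, ht, h⟩⟩
    · exact ⟨p, hp, t, by omega, Or.inl h.symm⟩
    · exact ⟨p, hp, t, by omega, Or.inr h.symm⟩
  · rintro ⟨p, hp, t, ht, h | h⟩
    · exact ⟨p, hp, Or.inl ⟨t, by omega, h.symm⟩⟩
    · exact ⟨p, hp, Or.inr ⟨t, by omega, h.symm⟩⟩

theorem eL_bL {L : ℕ} {C : List Cn} {u v : Lb} (h : (u, v) ∈ eL L C) : u ∈ bL L C ∧ v ∈ bL L C := by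
  rw [mem_eL] at h
  obtain ⟨p, hp, t, ht, h | h⟩ := h <;> rw [Prod.mk.injEq] at h
  · exact ⟨mem_bL.2 ⟨p, hp, t, by omega, Or.inl h.1⟩, mem_bL.2 ⟨p, hp, t + 1, by omega, Or.inl h.2⟩⟩
  · exact ⟨mem_bL.2 ⟨p, hp, t, by omega, Or.inr h.1⟩, mem_bL.2 ⟨p, hp, t + 1, by omega, Or.inr h.2⟩⟩

theorem fL_bL {L : ℕ} {C : List Cn} {u v : Lb} (h : (u, v) ∈ fL L C) : u ∈ bL L C ∧ v ∈ bL L C := by
  rw [mem_fL] at h
  obtain ⟨p, hp, s, hs, t, ht, h⟩ := h
  rw [Prod.mk.injEq] at h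
  exact ⟨mem_bL.2 ⟨p, hp, s, hs, Or.inl h.1⟩, mem_bL.2 ⟨p, hp, t, ht, Or.inr h.2⟩⟩

theorem mem_vL {L : ℕ} {C : List Cn} {u : Lb} {j : ℕ} :
    (u, j) ∈ vL L C ↔ u ∈ bL L C ∧ j < 2 * (bL L C).length + 1 := by
  unfold vL
  rw [List.mem_product, mem_range]

/-! ### From a realization to a tree metric satisfying the constraints -/

theorem extract {L : ℕ} {C : List Cn} (h : GenPCG (inst L C)) :
    ∃ δ : Lb → Lb → ℝ, FP δ ∧ ∀ c ∈ C, Sep δ (0, c.1.1) (0, c.1.2) (0, c.2.1) (0, c.2.2) := by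
  classical
  rw [inst_iff] at h
  obtain ⟨hFE, D, a, b, ha, hab, hE, hF⟩ := h
  by_cases hC : bL L C = []
  · refine ⟨fun _ _ => 0, ⟨fun _ _ => rfl, fun _ => rfl, fun _ _ _ _ => Or.inl le_rfl⟩, ?_⟩
    intro c hc
    exfalso
    obtain ⟨i, hi, hi'⟩ := List.getElem_of_mem hc
    have h1 : (c, i) ∈ C.zipIdx := by
      rw [List.mem_zipIdx_iff_getElem?]
      simp [hi, hi']
    have h2 : c0 L (c, i) 0 ∈ bL L C := mem_bL.2 ⟨_, h1, 0, by omega, Or.inl rfl⟩
    rw [hC] at h2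
    simp at h2
  set k := 2 * (bL L C).length + 1 with hk
  have hlen : 0 < (bL L C).length := List.length_pos_iff.2 hC
  -- indices of labels
  have hidx : ∀ x : Lb × ℕ, ∃ i : Fin (vL L C).length, x ∈ vL L C → (vL L C)[i] = x := by
    intro x
    by_cases hx : x ∈ vL L C
    · obtain ⟨i, hi, hi'⟩ := List.getElem_of_mem hx
      exact ⟨⟨i, hi⟩, fun _ => hi'⟩
    · obtain ⟨u, hu⟩ := List.exists_mem_of_ne_nil _ hC
      have : (u, 0) ∈ vL L C := mem_vL.2 ⟨hu, by omega⟩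
      exact ⟨⟨0, List.length_pos_of_mem this⟩, fun h => absurd h hx⟩
  choose idx hidx using hidx
  have hadjE : ∀ x y, x ∈ vL L C → y ∈ vL L C → adE L C x y = true →
      a ≤ D.d (idx x) (idx y) ∧ D.d (idx x) (idx y) ≤ b := by
    intro x y hx hy hxy
    have h1 : (gE L C).Adj (idx x) (idx y) := by
      change adE L C (vL L C)[idx x] (vL L C)[idx y] = true
      rw [hidx x hx, hidx y hy]
      exact hxy
    have h2 := hE h1
    rw [LeafTree.pcg_adj] at h2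
    exact h2.2
  have hadjF : ∀ x y, x ∈ vL L C → y ∈ vL L C → adF L C x y = true →
      ¬ (a ≤ D.d (idx x) (idx y) ∧ D.d (idx x) (idx y) ≤ b) := by
    intro x y hx hy hxy hcon
    have h1 : (gF L C).Adj (idx x) (idx y) := by
      change adF L C (vL L C)[idx x] (vL L C)[idx y] = true
      rw [hidx x hx, hidx y hy]
      exact hxy
    have h2 : (D.pcg a b).Adj (idx x) (idx y) := by
      rw [LeafTree.pcg_adj]
      exact ⟨h1.ne, hcon⟩
    have h3 := (disjoint_iff_inf_le.1 hF) (show (gF L C ⊓ D.pcg a b).Adj (idx x) (idx y) from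
      ⟨h1, h2⟩)
    exact h3
  have hFne : ∀ u v, (u, v) ∈ fL L C → u ≠ v := by
    rintro u v huv rfl
    obtain ⟨hu, -⟩ := fL_bL huv
    have m0 : (u, 0) ∈ vL L C := mem_vL.2 ⟨hu, by omega⟩
    have m1 : (u, 1) ∈ vL L C := mem_vL.2 ⟨hu, by omega⟩
    have e1 : adE L C (u, 0) (u, 1) = true := by simp [adE]
    have e2 : adF L C (u, 0) (u, 1) = true := by simp [adF, huv]
    exact hadjF _ _ m0 m1 e2 (hadjE _ _ m0 m1 e1)
  have hdd := D.fp
  have hB : ∀ u v, ∃ i0 j0, ∀ i < k, ∀ j < k,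
      ((u, v) ∈ fL L C ∧ D.d (idx (u, i)) (idx (v, j)) ≤ b) → i = i0 ∨ j = j0 := by
    intro u v
    by_cases huv : (u, v) ∈ fL L C
    · obtain ⟨hu, hv⟩ := fL_bL huv
      have hne := hFne u v huv
      obtain ⟨i0, j0, h0⟩ := near_cover hdd (m := a) (M := b) k (fun i => idx (u, i))
        (fun j => idx (v, j)) (by
          intro i hi i' hi' hii
          apply hadjE _ _ (mem_vL.2 ⟨hu, hi⟩) (mem_vL.2 ⟨hu, hi'⟩)
          simp [adE, hii]) (by
          intro i hi i' hi' hii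
          apply hadjE _ _ (mem_vL.2 ⟨hv, hi⟩) (mem_vL.2 ⟨hv, hi'⟩)
          simp [adE, hii]) (by
          intro i hi j hj
          apply hadjF _ _ (mem_vL.2 ⟨hu, hi⟩) (mem_vL.2 ⟨hv, hj⟩)
          simp [adF, hne, huv])
      exact ⟨i0, j0, fun i hi j hj h => h0 i hi j hj h.2⟩
    · exact ⟨0, 0, fun i _ j _ h => absurd h.1 huv⟩
  obtain ⟨f, hf, hf'⟩ := exists_transversal (bL L C) k (by omega) _ hB
  have hmemf : ∀ u ∈ bL L C, (u, f u) ∈ vL L C := fun u hu => mem_vL.2 ⟨hu, hf u⟩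
  refine ⟨fun u v => D.d (idx (u, f u)) (idx (v, f v)), ⟨fun _ _ => hdd.symm _ _,
    fun _ => hdd.self _, fun _ _ _ _ => hdd.four _ _ _ _⟩, ?_⟩
  have hE' : ∀ u v, (u, v) ∈ eL L C → D.d (idx (u, f u)) (idx (v, f v)) ≤ b := by
    intro u v huv
    obtain ⟨hu, hv⟩ := eL_bL huv
    by_cases huv' : u = v
    · subst huv'
      rw [hdd.self]
      linarith
    · refine (hadjE _ _ (hmemf u hu) (hmemf v hv) ?_).2
      simp [adE, huv', huv]
  have hF' : ∀ u v, (u, v) ∈ fL L C → b < D.d (idx (u, f u)) (idx (v, f v)) := by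
    intro u v huv
    obtain ⟨hu, hv⟩ := fL_bL huv
    by_contra hcon
    push Not at hcon
    exact hf' u hu v hv ⟨huv, hcon⟩
  intro c hc
  obtain ⟨i, hi, hi'⟩ := List.getElem_of_mem hc
  have h1 : (c, i) ∈ C.zipIdx := by
    rw [List.mem_zipIdx_iff_getElem?]
    simp [hi, hi']
  have key := sep_chain (d := fun u v => D.d (idx (u, f u)) (idx (v, f v)))
    ⟨fun _ _ => hdd.symm _ _, fun _ => hdd.self _, fun _ _ _ _ => hdd.four _ _ _ _⟩ (M := b) L
    (c0 L (c, i)) (c1 L (c, i))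
    (fun t ht => hE' _ _ (mem_eL.2 ⟨_, h1, t, ht, Or.inl rfl⟩))
    (fun t ht => hE' _ _ (mem_eL.2 ⟨_, h1, t, ht, Or.inr rfl⟩))
    (fun s hs t ht => hF' _ _ (mem_fL.2 ⟨_, h1, s, hs, t, ht, rfl⟩))
  have e0 : c0 L (c, i) 0 = (0, c.1.1) := by simp [c0, cv]
  have e1 : c0 L (c, i) (L + 1) = (0, c.1.2) := by simp [c0, cv]
  have e2 : c1 L (c, i) 0 = (0, c.2.1) := by simp [c1, cv]
  have e3 : c1 L (c, i) (L + 1) = (0, c.2.2) := by simp [c1, cv]
  rw [e0, e1, e2, e3] at key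
  exact key

/-! ### From positions on a line to a realization -/

/-- Moving from `x` to `y` one unit per step. -/
def clamp (x y t : ℕ) : ℕ := if x ≤ y then min (x + t) y else max (x - t) y

/-- the positions of all base vertices, given those of the taxa -/
def Pl (C : List Cn) (pos : Tx → ℕ) (l : Lb) : ℕ :=
  if l.1 = 0 then pos l.2 else
    match C[l.1 - 1]? with
    | none => 0
    | some c => if l.2.1 = 0 then clamp (pos c.1.1) (pos c.1.2) l.2.2.1
      else clamp (pos c.2.1) (pos c.2.2) l.2.2.1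

theorem Pl_c0 {L R : ℕ} {C : List Cn} {pos : Tx → ℕ} {p : Cn × ℕ} (hp : p ∈ C.zipIdx)
    (hLR : R ≤ L) (h1 : pos p.1.1.1 ≤ R) (h2 : pos p.1.1.2 ≤ R) {t : ℕ} (ht : t ≤ L + 1) :
    Pl C pos (c0 L p t) = clamp (pos p.1.1.1) (pos p.1.1.2) t := by
  rw [List.mem_zipIdx_iff_getElem?] at hp
  unfold c0 cv
  split_ifs with h3 h4
  · subst h3
    simp only [Pl, clamp]
    split_ifs <;> simp <;> omega
  · simp only [Pl]
    rw [if_neg (by omega)]
    simp only [Nat.add_sub_cancel]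
    rw [hp]
    simp
  · simp only [Pl, clamp]
    split_ifs <;> omega

theorem Pl_c1 {L R : ℕ} {C : List Cn} {pos : Tx → ℕ} {p : Cn × ℕ} (hp : p ∈ C.zipIdx)
    (hLR : R ≤ L) (h1 : pos p.1.2.1 ≤ R) (h2 : pos p.1.2.2 ≤ R) {t : ℕ} (ht : t ≤ L + 1) :
    Pl C pos (c1 L p t) = clamp (pos p.1.2.1) (pos p.1.2.2) t := by
  rw [List.mem_zipIdx_iff_getElem?] at hp
  unfold c1 cv
  split_ifs with h3 h4
  · subst h3
    simp only [Pl, clamp]
    split_ifs <;> simp <;> omega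
  · simp only [Pl]
    rw [if_neg (by omega)]
    simp only [Nat.add_sub_cancel]
    rw [hp]
    simp
  · simp only [Pl, clamp]
    split_ifs <;> omega

theorem clamp_step (x y t : ℕ) : clamp x y t ≤ clamp x y (t + 1) + 1 ∧
    clamp x y (t + 1) ≤ clamp x y t + 1 := by
  unfold clamp
  split_ifs <;> omega

theorem clamp_mem (x y t : ℕ) : min x y ≤ clamp x y t ∧ clamp x y t ≤ max x y := by
  unfold clamp
  split_ifs <;> omega

theorem realize {L R : ℕ} {C : List Cn} (pos : Tx → ℕ) (hR1 : 1 ≤ R) (hLR : R ≤ L)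
    (hle : ∀ c ∈ C, (pos c.1.1 ≤ R ∧ pos c.1.2 ≤ R) ∧ (pos c.2.1 ≤ R ∧ pos c.2.2 ≤ R))
    (hsep : ∀ c ∈ C, max (pos c.1.1) (pos c.1.2) + 2 ≤ min (pos c.2.1) (pos c.2.2) ∨
      max (pos c.2.1) (pos c.2.2) + 2 ≤ min (pos c.1.1) (pos c.1.2))
    (h0 : ∃ c ∈ C, pos c.1.1 = 0) (hR : ∃ c ∈ C, pos c.2.2 = R) : GenPCG (inst L C) := by
  classical
  rw [inst_iff]
  have hzip : ∀ p ∈ C.zipIdx, p.1 ∈ C := by
    intro p hp
    exact List.mem_of_getElem? (List.mem_zipIdx_iff_getElem?.1 hp)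
  have hzip' : ∀ c ∈ C, ∃ i, (c, i) ∈ C.zipIdx := by
    intro c hc
    obtain ⟨i, hi, hi'⟩ := List.getElem_of_mem hc
    refine ⟨i, ?_⟩
    rw [List.mem_zipIdx_iff_getElem?]
    simp [hi, hi']
  have e0 : ∀ p ∈ C.zipIdx, ∀ t ≤ L + 1, Pl C pos (c0 L p t) =
      clamp (pos p.1.1.1) (pos p.1.1.2) t := fun p hp t ht =>
    Pl_c0 hp hLR (hle _ (hzip p hp)).1.1 (hle _ (hzip p hp)).1.2 ht
  have e1 : ∀ p ∈ C.zipIdx, ∀ t ≤ L + 1, Pl C pos (c1 L p t) =
      clamp (pos p.1.2.1) (pos p.1.2.2) t := fun p hp t ht =>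
    Pl_c1 hp hLR (hle _ (hzip p hp)).2.1 (hle _ (hzip p hp)).2.2 ht
  have hPle : ∀ u ∈ bL L C, Pl C pos u ≤ R := by
    intro u hu
    rw [mem_bL] at hu
    obtain ⟨p, hp, t, ht, rfl | rfl⟩ := hu
    · rw [e0 p hp t ht]
      have := clamp_mem (pos p.1.1.1) (pos p.1.1.2) t
      have := hle _ (hzip p hp)
      omega
    · rw [e1 p hp t ht]
      have := clamp_mem (pos p.1.2.1) (pos p.1.2.2) t
      have := hle _ (hzip p hp)
      omega
  have hmem : ∀ i : Fin (vL L C).length, (vL L C)[i].1 ∈ bL L C := by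
    intro i
    have h1 : (vL L C)[i] ∈ vL L C := List.getElem_mem _
    exact (mem_vL.1 (show ((vL L C)[i].1, (vL L C)[i].2) ∈ vL L C from h1)).1
  let P : Fin (vL L C).length → Fin (R + 1) := fun i =>
    ⟨Pl C pos (vL L C)[i].1, Nat.lt_succ_of_le (hPle _ (hmem i))⟩
  have hPv : ∀ i, (P i : ℕ) = Pl C pos (vL L C)[i].1 := fun i => rfl
  have hex : ∀ u ∈ bL L C, ∃ i : Fin (vL L C).length, (P i : ℕ) = Pl C pos u := by
    intro u hu
    have h1 : (u, 0) ∈ vL L C := mem_vL.2 ⟨hu, by omega⟩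
    obtain ⟨i, hi, hi'⟩ := List.getElem_of_mem h1
    refine ⟨⟨i, hi⟩, ?_⟩
    rw [hPv]
    simp [hi']
  have hP0 : ∃ v, P v = 0 := by
    obtain ⟨c, hc, hc'⟩ := h0
    obtain ⟨i, hi⟩ := hzip' c hc
    obtain ⟨v, hv⟩ := hex (c0 L (c, i) 0) (mem_bL.2 ⟨_, hi, 0, by omega, Or.inl rfl⟩)
    refine ⟨v, Fin.ext ?_⟩
    rw [hv, e0 _ hi 0 (by omega)]
    simp only [hc']
    unfold clamp
    simp
  have hPR : ∃ v, (P v : ℕ) = R := by
    obtain ⟨c, hc, hc'⟩ := hR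
    obtain ⟨i, hi⟩ := hzip' c hc
    obtain ⟨v, hv⟩ := hex (c1 L (c, i) (L + 1)) (mem_bL.2 ⟨_, hi, L + 1, by omega, Or.inr rfl⟩)
    refine ⟨v, ?_⟩
    rw [hv, e1 _ hi _ le_rfl]
    simp only [hc']
    have := (hle c hc).2
    unfold clamp
    split_ifs <;> omega
  obtain ⟨D, hD⟩ := exists_caterpillar P hR1 hP0 hPR
  have hE : gE L C ≤ D.pcg 1 2 := by
    intro i j hij
    have hne := hij.ne
    rw [LeafTree.pcg_adj]
    refine ⟨hne, ?_⟩
    rw [hD i j hne]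
    have h1 : (P i : ℕ) ≤ P j + 1 ∧ (P j : ℕ) ≤ P i + 1 := by
      have h2 : adE L C (vL L C)[i] (vL L C)[j] = true := hij
      simp only [adE, Bool.and_eq_true, Bool.or_eq_true, decide_eq_true_eq] at h2
      have hpair : ∀ u v, (u, v) ∈ eL L C → Pl C pos u ≤ Pl C pos v + 1 ∧
          Pl C pos v ≤ Pl C pos u + 1 := by
        intro u v huv
        rw [mem_eL] at huv
        obtain ⟨p, hp, t, ht, h | h⟩ := huv <;> rw [Prod.mk.injEq] at h
        · rw [h.1, h.2, e0 p hp t (by omega), e0 p hp (t + 1) (by omega)]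
          exact clamp_step _ _ _
        · rw [h.1, h.2, e1 p hp t (by omega), e1 p hp (t + 1) (by omega)]
          exact clamp_step _ _ _
      rw [hPv, hPv]
      rcases h2.2 with h3 | h3 | h3
      · rw [h3]
        omega
      · exact hpair _ _ h3
      · exact (hpair _ _ h3).symm
    have h2 : ((P i : ℕ) : ℝ) ≤ ((P j : ℕ) : ℝ) + 1 := by exact_mod_cast h1.1
    have h3 : ((P j : ℕ) : ℝ) ≤ ((P i : ℕ) : ℝ) + 1 := by exact_mod_cast h1.2
    constructor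
    · have := abs_nonneg (((P i : ℕ) : ℝ) - ((P j : ℕ) : ℝ))
      linarith
    · have : |((P i : ℕ) : ℝ) - ((P j : ℕ) : ℝ)| ≤ 1 := by
        rw [abs_le]
        constructor <;> linarith
      linarith
  have hF : Disjoint (gF L C) (D.pcg 1 2) := by
    rw [disjoint_iff_inf_le]
    intro i j hij
    exfalso
    obtain ⟨hij, hij2⟩ := hij
    have hne := hij.ne
    rw [LeafTree.pcg_adj, hD i j hne] at hij2
    have h1 : (P i : ℕ) + 2 ≤ P j ∨ (P j : ℕ) + 2 ≤ P i := by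
      have h2 : adF L C (vL L C)[i] (vL L C)[j] = true := hij
      simp only [adF, Bool.and_eq_true, Bool.or_eq_true, decide_eq_true_eq] at h2
      have hpair : ∀ u v, (u, v) ∈ fL L C → Pl C pos u + 2 ≤ Pl C pos v ∨
          Pl C pos v + 2 ≤ Pl C pos u := by
        intro u v huv
        rw [mem_fL] at huv
        obtain ⟨p, hp, s, hs, t, ht, h⟩ := huv
        rw [Prod.mk.injEq] at h
        rw [h.1, h.2, e0 p hp s hs, e1 p hp t ht]
        have a1 := clamp_mem (pos p.1.1.1) (pos p.1.1.2) s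
        have a2 := clamp_mem (pos p.1.2.1) (pos p.1.2.2) t
        have a3 := hsep _ (hzip p hp)
        omega
      rw [hPv, hPv]
      rcases h2.2 with h3 | h3
      · exact hpair _ _ h3
      · exact (hpair _ _ h3).symm
    have h4 : (2 : ℝ) ≤ |((P i : ℕ) : ℝ) - ((P j : ℕ) : ℝ)| := by
      rcases h1 with h1 | h1
      · have h2 : ((P i : ℕ) : ℝ) + 2 ≤ ((P j : ℕ) : ℝ) := by exact_mod_cast h1
        rw [abs_sub_comm]
        exact le_trans (by linarith) (le_abs_self _)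
      · have h2 : ((P j : ℕ) : ℝ) + 2 ≤ ((P i : ℕ) : ℝ) := by exact_mod_cast h1
        exact le_trans (by linarith) (le_abs_self _)
    linarith [hij2.2.2]
  refine ⟨?_, D, 1, 2, by norm_num, by norm_num, hE, hF⟩
  intro i j hij
  rw [SimpleGraph.compl_adj]
  refine ⟨hij.ne, fun h => ?_⟩
  exact (disjoint_iff_inf_le.1 hF) (show (gF L C ⊓ D.pcg 1 2).Adj i j from ⟨hij, hE h⟩)

end Pool.Agent.H87PCG
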