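import Pool.Agent.H87PCG.Far

/-!
# Separated pairs in a tree metric
-/

namespace Pool.Agent.H87PCG

variable {X : Type}

/-- The paths `a b` and `c e` are disjoint. -/
def Sep (d : X → X → ℝ) (a b c e : X) : Prop :=
  d a b + d c e < d a c + d b e ∧ d a b + d c e < d a e + d b c

theorem Sep.swap {d : X → X → ℝ} (hd : FP d) {a b c e : X} (h : Sep d a b c e) :
    Sep d c e a b := by
  unfold Sep at *
  rw [hd.symm c a, hd.symm e b, hd.symm c b, hd.symm e a]
  constructor <;> linarith [h.1, h.2]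

/-- Twice the Gromov product. -/
def gp (d : X → X → ℝ) (o x y : X) : ℝ := d o x + d o y - d x y

theorem gp_comm {d : X → X → ℝ} (hd : FP d) (o x y : X) : gp d o x y = gp d o y x := by
  unfold gp
  rw [hd.symm x y]
  ring

theorem gp_ultra {d : X → X → ℝ} (hd : FP d) (o x y z : X) :
    gp d o x z ≤ gp d o x y ∨ gp d o z y ≤ gp d o x y := by
  unfold gp
  have h1 := hd.four o z x y
  have h2 := hd.symm z x
  rcases h1 with h1 | h1
  · right; linarith
  · left; linarith

theorem sep_iff {d : X → X → ℝ} (hd : FP d) (o a b c e : X) : Sep d a b c e ↔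
    (gp d o a c + gp d o b e < gp d o a b + gp d o c e ∧
      gp d o a e + gp d o b c < gp d o a b + gp d o c e) := by
  unfold Sep gp
  constructor
  · rintro ⟨h1, h2⟩
    constructor <;> linarith
  · rintro ⟨h1, h2⟩
    constructor <;> linarith

theorem gp_base {d : X → X → ℝ} (hd : FP d) (o x : X) : gp d o o x = 0 := by
  unfold gp
  rw [hd.self]
  ring

theorem sep_iff' {d : X → X → ℝ} (hd : FP d) (a b c e : X) : Sep d a b c e ↔
    (gp d c b e < gp d c a b ∧ gp d c a e < gp d c a b) := by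
  rw [sep_iff hd c, gp_comm hd c a c, gp_base hd, gp_base hd, gp_comm hd c b c, gp_base hd]
  simp

theorem Sep.trans {d : X → X → ℝ} (hd : FP d) {a b f c e : X} (h1 : Sep d a b c e)
    (h2 : Sep d b f c e) : Sep d a f c e := by
  rw [sep_iff' hd] at *
  obtain ⟨h1a, h1b⟩ := h1
  obtain ⟨h2a, h2b⟩ := h2
  have s1 := gp_comm hd c a b
  have s2 := gp_comm hd c b f
  have s3 := gp_comm hd c b e
  have s4 := gp_comm hd c a f
  have h3 := gp_ultra hd c a f b
  have h4 := gp_ultra hd c b e a
  have h5 := gp_ultra hd c b e f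
  constructor
  · rcases h3 with h3 | h3 <;> rcases h4 with h4 | h4 <;> rcases h5 with h5 | h5 <;> linarith
  · rcases h3 with h3 | h3 <;> rcases h4 with h4 | h4 <;> rcases h5 with h5 | h5 <;> linarith

/-- Disjoint chains of short steps. -/
theorem sep_chain {d : X → X → ℝ} (hd : FP d) {M : ℝ} (n : ℕ) (x y : ℕ → X)
    (hx : ∀ t ≤ n, d (x t) (x (t + 1)) ≤ M) (hy : ∀ t ≤ n, d (y t) (y (t + 1)) ≤ M)
    (hxy : ∀ s ≤ n + 1, ∀ t ≤ n + 1, M < d (x s) (y t)) :
    Sep d (x 0) (x (n + 1)) (y 0) (y (n + 1)) := by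
  have h1 : ∀ s ≤ n, ∀ t ≤ n, Sep d (x s) (x (s + 1)) (y t) (y (t + 1)) := by
    intro s hs t ht
    have e1 := hx s hs
    have e2 := hy t ht
    have e3 := hxy s (by omega) t (by omega)
    have e4 := hxy (s + 1) (by omega) (t + 1) (by omega)
    have e5 := hxy s (by omega) (t + 1) (by omega)
    have e6 := hxy (s + 1) (by omega) t (by omega)
    unfold Sep
    constructor <;> linarith
  have h2 : ∀ t ≤ n, ∀ s ≤ n, Sep d (x 0) (x (s + 1)) (y t) (y (t + 1)) := by
    intro t ht s
    induction s with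
    | zero => intro hs; exact h1 0 hs t ht
    | succ s ih =>
      intro hs
      exact (ih (by omega)).trans hd (h1 (s + 1) hs t ht)
  have h3 : ∀ t ≤ n, Sep d (y 0) (y (t + 1)) (x 0) (x (n + 1)) := by
    intro t
    induction t with
    | zero => intro ht; exact (h2 0 ht n le_rfl).swap hd
    | succ t ih =>
      intro ht
      exact (ih (by omega)).trans hd ((h2 (t + 1) ht n le_rfl).swap hd)
  exact (h3 n le_rfl).swap hd

/-! ### Intervals on a line -/

section Line

variable {d : X → X → ℝ} {o β : X}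

/-- `s₀` and `s₁` lie, in this order, on (branches of) the path from `o` to `β`. -/
theorem interval (hd : FP d) {s0 s1 : X} (h : Sep d o s0 s1 β) :
    gp d o s0 β < gp d o s1 β ∧ gp d o s0 s1 = gp d o s0 β := by
  have h' := h
  rw [sep_iff hd o] at h'
  rw [gp_base hd, gp_base hd, gp_base hd] at h'
  obtain ⟨h1, h2⟩ := h'
  have h3 := gp_ultra hd o s0 s1 β
  have h4 := gp_ultra hd o s0 β s1
  have s1' := gp_comm hd o β s1
  have s2' := gp_comm hd o s1 β
  refine ⟨by linarith, ?_⟩
  apply le_antisymm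
  · rcases h4 with h4 | h4 <;> linarith
  · rcases h3 with h3 | h3 <;> linarith

/-- Separated intervals are disjoint. -/
theorem trichotomy (hd : FP d) {s0 s1 t0 t1 : X} (hs : Sep d o s0 s1 β) (ht : Sep d o t0 t1 β)
    (h : Sep d s0 s1 t0 t1) : gp d o s1 β < gp d o t0 β ∨ gp d o t1 β < gp d o s0 β := by
  obtain ⟨a1, a2⟩ := interval hd hs
  obtain ⟨b1, b2⟩ := interval hd ht
  rw [sep_iff hd o] at h
  obtain ⟨h1, h2⟩ := h
  by_contra hcon
  push Not at hcon
  obtain ⟨c1, c2⟩ := hcon
  have e1 := gp_ultra hd o s0 t1 β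
  have e2 := gp_ultra hd o s1 t0 β
  have e3 := gp_comm hd o β t1
  have e4 := gp_comm hd o β t0
  rcases e1 with e1 | e1 <;> rcases e2 with e2 | e2 <;> linarith

/-- A point separated from an interval does not jump over it. -/
theorem not_between (hd : FP d) {x0 x1 y0 y1 z0 z1 : X} (hx : Sep d o x0 x1 β)
    (hy : Sep d o y0 y1 β) (hz : Sep d o z0 z1 β) (h : Sep d x0 z0 y0 y1)
    (h1 : gp d o x1 β < gp d o y0 β) (h2 : gp d o y1 β < gp d o z0 β) : False := by
  obtain ⟨a1, a2⟩ := interval hd hx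
  obtain ⟨b1, b2⟩ := interval hd hy
  obtain ⟨c1, c2⟩ := interval hd hz
  rw [sep_iff hd o] at h
  obtain ⟨h3, h4⟩ := h
  have e1 := gp_ultra hd o x0 β z0
  have e2 := gp_ultra hd o x0 y0 β
  have e3 := gp_ultra hd o z0 y1 β
  have e4 := gp_comm hd o β y0
  have e5 := gp_comm hd o β y1
  rcases e1 with e1 | e1 <;> rcases e2 with e2 | e2 <;> rcases e3 with e3 | e3 <;> linarith

end Line

end Pool.Agent.H87PCG
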